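import Pool.Agent.Lib.MP_93d8d2_nt.Tower2

/-!
# A simultaneous approximation measure for `√m ^ ρ`, `(q e ^ a) ^ (1 / ρ)` and `π / ρ`

For every natural `m ≥ 2`, every real `ρ ≠ 0` and all rationals `q > 0`, `a ≠ 0` the three numbers
cannot all be very close to algebraic numbers of bounded degree.  For `m = 2`,
`ρ = z = √2 ^ √2` the first number is the tower `w = √2 ^ z`, the others are `(q e ^ a) ^ (1 / z)`
and `π / z`.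
-/

namespace Pool.Agent.Results.MP_93d8d2_nt.TowerInverse

theorem result :
    ∀ m : ℕ, 2 ≤ m → ∀ ρ : ℝ, ρ ≠ 0 → ∀ (q a : ℚ), 0 < q → a ≠ 0 → ∀ (D : ℕ) (κ : ℝ), 10 < κ →
      ∃ C : ℝ, ∀ H : ℝ, 2 ≤ H → ∀ ξ : Fin 3 → ℂ,
      (∀ i, ∃ P : Polynomial ℤ, P ≠ 0 ∧ P.natDegree ≤ D ∧ (∀ j, |(P.coeff j : ℝ)| ≤ H) ∧
        Polynomial.aeval (ξ i) P = 0) →
      Real.exp (-(C * Real.log H ^ κ)) ≤
        max (max ‖((Real.sqrt m ^ ρ : ℝ) : ℂ) - ξ 0‖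
          ‖((((q : ℝ) * Real.exp a) ^ (1 / ρ) : ℝ) : ℂ) - ξ 1‖)
          ‖((Real.pi / ρ : ℝ) : ℂ) - ξ 2‖ :=
  fun m hm ρ hρ q a hq ha D _ hκ =>
    Pool.Agent.Lib.MP_93d8d2_nt.measureInv m hm ρ hρ q a hq ha D hκ

end Pool.Agent.Results.MP_93d8d2_nt.TowerInverse
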