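import Pool.Agent.Lib.MP_93d8d2_nt.Tower

/-!
# A simultaneous approximation measure for the tower `w = √2 ^ z`, `e ^ z` and `π z`,
where `z = √2 ^ √2`

The three numbers cannot all be very close to algebraic numbers of bounded degree; the same holds
for `√m ^ ρ`, `e ^ ρ`, `π ρ` for every natural `m ≥ 2` and every real `ρ ≠ 0`.
-/

namespace Pool.Agent.Results.MP_93d8d2_nt.TowerMeasure

theorem result :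
    (∀ (D : ℕ) (κ : ℝ), 10 < κ → ∃ C : ℝ, ∀ H : ℝ, 2 ≤ H → ∀ ξ : Fin 3 → ℂ,
      (∀ i, ∃ P : Polynomial ℤ, P ≠ 0 ∧ P.natDegree ≤ D ∧ (∀ j, |(P.coeff j : ℝ)| ≤ H) ∧
        Polynomial.aeval (ξ i) P = 0) →
      Real.exp (-(C * Real.log H ^ κ)) ≤
        max (max ‖((Real.sqrt 2 ^ (Real.sqrt 2 ^ Real.sqrt 2) : ℝ) : ℂ) - ξ 0‖
          ‖((Real.exp (Real.sqrt 2 ^ Real.sqrt 2) : ℝ) : ℂ) - ξ 1‖)
          ‖((Real.pi * Real.sqrt 2 ^ Real.sqrt 2 : ℝ) : ℂ) - ξ 2‖) ∧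
    (∀ m : ℕ, 2 ≤ m → ∀ ρ : ℝ, ρ ≠ 0 → ∀ (D : ℕ) (κ : ℝ), 10 < κ →
      ∃ C : ℝ, ∀ H : ℝ, 2 ≤ H → ∀ ξ : Fin 3 → ℂ,
      (∀ i, ∃ P : Polynomial ℤ, P ≠ 0 ∧ P.natDegree ≤ D ∧ (∀ j, |(P.coeff j : ℝ)| ≤ H) ∧
        Polynomial.aeval (ξ i) P = 0) →
      Real.exp (-(C * Real.log H ^ κ)) ≤
        max (max ‖((Real.sqrt m ^ ρ : ℝ) : ℂ) - ξ 0‖ ‖((Real.exp ρ : ℝ) : ℂ) - ξ 1‖)
          ‖((Real.pi * ρ : ℝ) : ℂ) - ξ 2‖) := by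
  refine ⟨fun D κ hκ => ?_, fun m hm ρ hρ D κ hκ =>
    Pool.Agent.Lib.MP_93d8d2_nt.measureT m hm ρ hρ D hκ⟩
  have h := Pool.Agent.Lib.MP_93d8d2_nt.measureT 2 le_rfl (Real.sqrt 2 ^ Real.sqrt 2)
    (Real.rpow_pos_of_pos (Real.sqrt_pos.mpr two_pos) _).ne' D hκ
  rw [Nat.cast_ofNat] at h
  exact h

end Pool.Agent.Results.MP_93d8d2_nt.TowerMeasure
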